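import Pool.Agent.Q84.Rnc.Lgp
import Pool.Agent.H737R3.Bridge

set_option autoImplicit false

/-!
# Cremona transformations of forms
-/

universe u

namespace Pool.Agent.Q84.Rnc

open MvPolynomial Pool.Agent.Chud Pool.Agent.H580C

variable {K : Type u} [Field K] {n : ℕ}

theorem mem_mI {v : Fin (n + 1) → K} {F : MvPolynomial (Fin (n + 1)) K} :
    F ∈ mI v ↔ eval v F = 0 := Iff.rfl

/-- Monomials with a small exponent at `i` vanish at the `i`-th coordinate point. -/
theorem mem_coord {F : MvPolynomial (Fin (n + 1)) K} {d m : ℕ} (hF : F.IsHomogeneous d)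
    {i : Fin (n + 1)} (h : ∀ c ∈ F.support, c i + m ≤ d) : F ∈ mI (Pi.single i 1) ^ m := by
  classical
  rw [F.as_sum]
  refine Ideal.sum_mem _ fun c hc => ?_
  have h1 := h c hc
  have h2 : c.degree = d := by
    have := hF (mem_support_iff.1 hc)
    rwa [Finsupp.degree_eq_weight_one]
  rw [monomial_eq, Finsupp.prod_fintype _ _ (by simp), ← Finset.mul_prod_erase _ _
    (Finset.mem_univ i)]
  apply Ideal.mul_mem_left
  apply Ideal.mul_mem_left
  have h3 : ∏ j ∈ Finset.univ.erase i, (X j : MvPolynomial (Fin (n + 1)) K) ^ c j ∈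
      ∏ j ∈ Finset.univ.erase i, (mI (Pi.single i (1 : K))) ^ (c j) := by
    refine Ideal.prod_mem_prod fun j hj => ?_
    refine Ideal.pow_mem_pow ?_ _
    rw [mem_mI, eval_X, Pi.single_eq_of_ne (Finset.ne_of_mem_erase hj)]
  rw [Finset.prod_pow_eq_pow_sum] at h3
  refine Ideal.pow_le_pow_right ?_ h3
  rw [Finsupp.degree_eq_sum, ← Finset.add_sum_erase _ _ (Finset.mem_univ i)] at h2
  omega

theorem sub_swap (i : Fin (n + 1)) (F : MvPolynomial (Fin (n + 1)) K) :
    sub (LinearEquiv.funCongrLeft K K (Equiv.swap 0 i)) F = rename (Equiv.swap 0 i) F := by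
  have h : sub (LinearEquiv.funCongrLeft K K (Equiv.swap 0 i)) =
      (rename (Equiv.swap 0 i) : MvPolynomial (Fin (n + 1)) K →ₐ[K] _) := by
    apply MvPolynomial.algHom_ext
    intro j
    rw [sub, aeval_X, rename_X, Finset.sum_eq_single (Equiv.swap 0 i j)]
    · simp [LinearEquiv.funCongrLeft]
    · intro l _ hl
      have : (LinearEquiv.funCongrLeft K K (Equiv.swap 0 i)) (Pi.single l 1) j = 0 := by
        simp only [LinearEquiv.funCongrLeft_apply, LinearMap.funLeft_apply]
        exact Pi.single_eq_of_ne (fun h => hl h.symm) _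
      rw [this, C_0, zero_mul]
    · intro h; exact absurd (Finset.mem_univ _) h
  rw [h]

/-- The converse of `mem_coord`. -/
theorem coord_le {F : MvPolynomial (Fin (n + 1)) K} {d m : ℕ} (hF : F.IsHomogeneous d)
    {i : Fin (n + 1)} (h : F ∈ mI (Pi.single i 1) ^ m) : ∀ c ∈ F.support, c i + m ≤ d := by
  classical
  intro c hc
  obtain ⟨-, s2, -, s4, -, -⟩ := t_SU K (n + 1) (LinearEquiv.funCongrLeft K K (Equiv.swap 0 i))
  have h1 : (LinearEquiv.funCongrLeft K K (Equiv.swap 0 i)) (e0 K n) = Pi.single i 1 := by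
    funext j
    simp only [LinearEquiv.funCongrLeft_apply, LinearMap.funLeft_apply, e0]
    by_cases hj : j = i
    · subst hj; simp
    · rw [Pi.single_eq_of_ne hj]
      have : Equiv.swap 0 i j ≠ 0 := by
        intro h0
        have := (Equiv.swap_apply_eq_iff).mp h0
        rw [Equiv.swap_apply_left] at this
        exact hj this
      simp [this]
  have h2 := (s4 F (e0 K n) m).mpr (by rw [h1]; exact h)
  have h3 := (t_OE K n d m _ (s2 F d hF)).1 h2
  rw [sub_swap] at h3
  have h4 : Finsupp.mapDomain (Equiv.swap 0 i) c ∈ (rename (Equiv.swap 0 i) F).support := by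
    rw [mem_support_iff, coeff_rename_mapDomain _ (Equiv.injective _)]
    exact mem_support_iff.mp hc
  have h5 := h3 _ h4
  have h6 : (Finsupp.mapDomain (Equiv.swap 0 i) c) 0 = c i := by
    have := Finsupp.mapDomain_apply (Equiv.injective (Equiv.swap 0 i)) c i
    rwa [Equiv.swap_apply_right] at this
  rwa [h6] at h5

/-- The Cremona transform `x ^ r F (1 / x)`. -/
noncomputable def crem (r : Fin (n + 1) →₀ ℕ) (F : MvPolynomial (Fin (n + 1)) K) :
    MvPolynomial (Fin (n + 1)) K :=
  ∑ c ∈ F.support, monomial (r - c) (coeff c F)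

theorem coeff_crem {r : Fin (n + 1) →₀ ℕ} {F : MvPolynomial (Fin (n + 1)) K}
    (h : ∀ c ∈ F.support, c ≤ r) {c : Fin (n + 1) →₀ ℕ} (hc : c ≤ r) :
    coeff (r - c) (crem r F) = coeff c F := by
  classical
  rw [crem, coeff_sum]
  by_cases h0 : c ∈ F.support
  · rw [Finset.sum_eq_single c]
    · rw [coeff_monomial, if_pos rfl]
    · intro b hb hbc
      rw [coeff_monomial, if_neg]
      intro h1
      apply hbc
      have h2 : r - (r - b) = r - (r - c) := by rw [h1]
      rwa [tsub_tsub_cancel_of_le (h b hb), tsub_tsub_cancel_of_le hc] at h2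
    · intro h1; exact absurd h0 h1
  · rw [notMem_support_iff.mp h0]
    refine Finset.sum_eq_zero fun b hb => ?_
    rw [coeff_monomial, if_neg]
    intro h1
    have h2 : r - (r - b) = r - (r - c) := by rw [h1]
    rw [tsub_tsub_cancel_of_le (h b hb), tsub_tsub_cancel_of_le hc] at h2
    exact h0 (h2 ▸ hb)

theorem crem_support {r : Fin (n + 1) →₀ ℕ} {F : MvPolynomial (Fin (n + 1)) K}
    {c' : Fin (n + 1) →₀ ℕ} (hc : c' ∈ (crem r F).support) : ∃ c ∈ F.support, c' = r - c := by
  classical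
  by_contra hcon
  push Not at hcon
  rw [mem_support_iff, crem, coeff_sum] at hc
  apply hc
  refine Finset.sum_eq_zero fun b hb => ?_
  rw [coeff_monomial, if_neg (hcon b hb).symm]

theorem crem_ne_zero {r : Fin (n + 1) →₀ ℕ} {F : MvPolynomial (Fin (n + 1)) K} (hF : F ≠ 0)
    (h : ∀ c ∈ F.support, c ≤ r) : crem r F ≠ 0 := by
  obtain ⟨c, hc⟩ : F.support.Nonempty := by
    rwa [Finset.nonempty_iff_ne_empty, Ne, support_eq_empty]
  intro h0
  have h1 := coeff_crem h (h c hc)
  rw [h0, coeff_zero] at h1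
  exact (mem_support_iff.mp hc) h1.symm

theorem crem_homog {r : Fin (n + 1) →₀ ℕ} {F : MvPolynomial (Fin (n + 1)) K} {d : ℕ}
    (hF : F.IsHomogeneous d) (h : ∀ c ∈ F.support, c ≤ r) :
    (crem r F).IsHomogeneous (r.degree - d) := by
  refine MvPolynomial.IsHomogeneous.sum _ _ _ fun c hc => ?_
  apply isHomogeneous_monomial
  have h2 : c.degree = d := by
    have := hF (mem_support_iff.1 hc)
    rwa [Finsupp.degree_eq_weight_one]
  have h3 : (r - c).degree + c.degree = r.degree := by
    rw [← map_add, tsub_add_cancel_of_le (h c hc)]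
  omega

/-- The standard Cremona substitution. -/
noncomputable def cs (K : Type u) [Field K] (n : ℕ) :
    MvPolynomial (Fin (n + 1)) K →ₐ[K] MvPolynomial (Fin (n + 1)) K :=
  aeval fun j => ∏ l ∈ Finset.univ.erase j, X l

theorem cs_monomial (c : Fin (n + 1) →₀ ℕ) (a : K) :
    cs K n (monomial c a) = C a * ∏ l, X l ^ (c.degree - c l) := by
  rw [cs, aeval_monomial, algebraMap_eq, Finsupp.prod_fintype _ _ (by simp)]
  congr 1
  have h1 : ∀ j : Fin (n + 1), (∏ l ∈ Finset.univ.erase j, (X l : MvPolynomial (Fin (n + 1)) K)) ^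
      c j = ∏ l, X l ^ (if l = j then 0 else c j) := by
    intro j
    rw [← Finset.prod_pow, ← Finset.mul_prod_erase Finset.univ (fun l => (X l : MvPolynomial
      (Fin (n + 1)) K) ^ (if l = j then 0 else c j)) (Finset.mem_univ j), if_pos rfl, pow_zero,
      one_mul]
    refine Finset.prod_congr rfl fun l hl => ?_
    rw [if_neg (Finset.ne_of_mem_erase hl)]
  rw [Finset.prod_congr rfl fun j _ => h1 j, Finset.prod_comm]
  refine Finset.prod_congr rfl fun l _ => ?_
  rw [Finset.prod_pow_eq_pow_sum]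
  congr 1
  have h2 : (∑ j, if l = j then 0 else c j) = ∑ j ∈ Finset.univ.erase l, c j := by
    rw [← Finset.add_sum_erase Finset.univ (fun j => if l = j then 0 else c j)
      (Finset.mem_univ l), if_pos rfl, zero_add]
    refine Finset.sum_congr rfl fun j hj => ?_
    rw [if_neg (Finset.ne_of_mem_erase hj).symm]
  have h3 : c.degree = c l + ∑ j ∈ Finset.univ.erase l, c j := by
    rw [Finsupp.degree_eq_sum, ← Finset.add_sum_erase _ _ (Finset.mem_univ l)]
  rw [h2]
  omega

/-- The Cremona transform and the Cremona substitution. -/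
theorem crem_eq {r : Fin (n + 1) →₀ ℕ} {F : MvPolynomial (Fin (n + 1)) K} {d : ℕ}
    (hF : F.IsHomogeneous d) (h : ∀ c ∈ F.support, c ≤ r) :
    crem r F * ∏ l, X l ^ (d - r l) = cs K n F * ∏ l, X l ^ (r l - d) := by
  conv_rhs => rw [F.as_sum, map_sum, Finset.sum_mul]
  rw [crem, Finset.sum_mul]
  refine Finset.sum_congr rfl fun c hc => ?_
  have h2 : c.degree = d := by
    have := hF (mem_support_iff.1 hc)
    rwa [Finsupp.degree_eq_weight_one]
  rw [cs_monomial, monomial_eq, Finsupp.prod_fintype _ _ (by simp), mul_assoc, mul_assoc,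
    ← Finset.prod_mul_distrib, ← Finset.prod_mul_distrib]
  congr 1
  refine Finset.prod_congr rfl fun l _ => ?_
  rw [← pow_add, ← pow_add, Finsupp.tsub_apply]
  congr 1
  have h3 : c l ≤ r l := h c hc l
  have h4 : c l ≤ d := by
    rw [← h2]; exact Finsupp.le_degree l c
  omega

theorem cs_mem {v : Fin (n + 1) → K} {F : MvPolynomial (Fin (n + 1)) K} {m : ℕ}
    (h : F ∈ mI (fun j => ∏ l ∈ Finset.univ.erase j, v l) ^ m) : cs K n F ∈ mI v ^ m := by
  have h1 : (mI (fun j => ∏ l ∈ Finset.univ.erase j, v l)).map (cs K n).toRingHom ≤ mI v := by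
    rw [Ideal.map_le_iff_le_comap]
    intro G hG
    have h2 : eval v (cs K n G) = eval (fun j => ∏ l ∈ Finset.univ.erase j, v l) G := by
      have : (eval v : MvPolynomial (Fin (n + 1)) K →+* K).comp (cs K n).toRingHom =
          eval (fun j => ∏ l ∈ Finset.univ.erase j, v l) := by
        apply MvPolynomial.ringHom_ext
        · intro a; simp
        · intro j; simp [cs]
      exact congrArg (fun g => g G) this
    change eval v (cs K n G) = 0
    rw [h2]
    exact hG
  have h2 := Ideal.mem_map_of_mem (cs K n).toRingHom h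
  rw [Ideal.map_pow] at h2
  exact Ideal.pow_right_mono h1 m h2

/-- Rescaling a point. -/
theorem mem_smul {F : MvPolynomial (Fin (n + 1)) K} {d m : ℕ} (hF : F.IsHomogeneous d)
    {v : Fin (n + 1) → K} {c : K} (hc : c ≠ 0) (h : F ∈ mI v ^ m) : F ∈ mI (c • v) ^ m := by
  obtain ⟨-, -, -, s4, -, -⟩ := t_SU K (n + 1) (LinearEquiv.smulOfNeZero K (Fin (n + 1) → K) c hc)
  have h1 : sub (LinearEquiv.smulOfNeZero K (Fin (n + 1) → K) c hc) F = C (c ^ d) * F := by
    have h2 : ∀ j, (∑ l, C ((LinearEquiv.smulOfNeZero K (Fin (n + 1) → K) c hc)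
        (Pi.single l 1) j) * X l : MvPolynomial (Fin (n + 1)) K) = C c * X j := by
      intro j
      rw [Finset.sum_eq_single j]
      · simp
      · intro l _ hl
        simp [Pi.single_eq_of_ne hl.symm]
      · intro h; exact absurd (Finset.mem_univ _) h
    rw [sub]
    conv_lhs => rw [F.as_sum, map_sum]
    conv_rhs => rw [F.as_sum, Finset.mul_sum]
    refine Finset.sum_congr rfl fun e he => ?_
    have h3 : e.degree = d := by
      have := hF (mem_support_iff.1 he)
      rwa [Finsupp.degree_eq_weight_one]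
    rw [aeval_monomial, algebraMap_eq, Finsupp.prod_fintype _ _ (by simp), monomial_eq,
      Finsupp.prod_fintype _ _ (by simp)]
    rw [Finset.prod_congr rfl fun j _ => by rw [h2 j, mul_pow], Finset.prod_mul_distrib,
      Finset.prod_pow_eq_pow_sum, ← Finsupp.degree_eq_sum, h3, C_pow]
    ring
  have h3 := (s4 F v m).symm
  have h4 : (LinearEquiv.smulOfNeZero K (Fin (n + 1) → K) c hc) v = c • v := rfl
  rw [h4] at h3
  rw [h3, h1]
  exact Ideal.mul_mem_left _ _ h

/-- The order of the Cremona transform at a point with nonzero coordinates. -/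
theorem crem_mem {r : Fin (n + 1) →₀ ℕ} {F : MvPolynomial (Fin (n + 1)) K} {d m : ℕ}
    (hF : F.IsHomogeneous d) (hF0 : F ≠ 0) (h : ∀ c ∈ F.support, c ≤ r) {v : Fin (n + 1) → K}
    (hv : ∀ j, v j ≠ 0) (hm : F ∈ mI v ^ m) : crem r F ∈ mI (fun j => (v j)⁻¹) ^ m := by
  have h1 : (fun j => ∏ l ∈ Finset.univ.erase j, (v l)⁻¹) = (∏ l, (v l)⁻¹) • v := by
    funext j
    rw [Pi.smul_apply, smul_eq_mul, ← Finset.mul_prod_erase Finset.univ _ (Finset.mem_univ j),
      mul_comm, ← mul_assoc, mul_inv_cancel₀ (hv j), one_mul]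
  have h2 : cs K n F ∈ mI (fun j => (v j)⁻¹) ^ m := by
    apply cs_mem
    rw [h1]
    exact mem_smul hF (Finset.prod_ne_zero_iff.mpr fun l _ => inv_ne_zero (hv l)) hm
  have h3 : crem r F * ∏ l, X l ^ (d - r l) ∈ mI (fun j => (v j)⁻¹) ^ m := by
    rw [crem_eq hF h]
    exact Ideal.mul_mem_right _ _ h2
  have hne := crem_ne_zero hF0 h
  have hne' : (∏ l, X l ^ (d - r l) : MvPolynomial (Fin (n + 1)) K) ≠ 0 :=
    Finset.prod_ne_zero_iff.mpr fun l _ => pow_ne_zero _ (X_ne_zero l)
  rw [mem_mI_pow_iff _ (mul_ne_zero hne hne'), mu_mul _ hne hne'] at h3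
  rw [mem_mI_pow_iff _ hne]
  have h4 : mu (fun j => (v j)⁻¹) (∏ l, X l ^ (d - r l) : MvPolynomial (Fin (n + 1)) K) = 0 := by
    by_contra hcon
    have h5 := (mu_pos_iff (fun j => (v j)⁻¹) hne').mp (Nat.pos_of_ne_zero hcon)
    rw [map_prod, Finset.prod_eq_zero_iff] at h5
    obtain ⟨l, -, hl⟩ := h5
    rw [map_pow, eval_X] at hl
    exact pow_ne_zero _ (inv_ne_zero (hv l)) hl
  omega

end Pool.Agent.Q84.Rnc
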