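import Pool.Agent.Q84.Rnc.Crem

set_option autoImplicit false

/-!
# Determinantal forms
-/

universe u

namespace Pool.Agent.Q84.Rnc

open MvPolynomial Pool.Agent.Chud Pool.Agent.H580C

section det

variable {R : Type*} [CommRing R] {t : ℕ}

theorem det_mem_aux (B : Matrix (Fin (t + 1)) (Fin (t + 1)) R) (J : Ideal R) (k : Fin (t + 1))
    (h : ∀ i j, i ≠ k → B i j ∈ J) : B.det ∈ J ^ t := by
  classical
  rw [← Matrix.det_transpose, Matrix.det_apply]
  refine Ideal.sum_mem _ fun σ _ => ?_
  rw [Units.smul_def, zsmul_eq_mul]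
  apply Ideal.mul_mem_left
  rw [← Finset.mul_prod_erase _ _ (Finset.mem_univ k)]
  apply Ideal.mul_mem_left
  have h3 : ∏ j ∈ Finset.univ.erase k, B.transpose (σ j) j ∈ ∏ _j ∈ Finset.univ.erase k, J :=
    Ideal.prod_mem_prod fun j hj => h _ _ (Finset.ne_of_mem_erase hj)
  rw [Finset.prod_const, Finset.card_erase_of_mem (Finset.mem_univ _), Finset.card_univ,
    Fintype.card_fin] at h3
  exact h3

theorem det_mem_all (B : Matrix (Fin (t + 1)) (Fin (t + 1)) R) (J : Ideal R)
    (h : ∀ i j, B i j ∈ J) : B.det ∈ J ^ (t + 1) := by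
  classical
  rw [Matrix.det_apply]
  refine Ideal.sum_mem _ fun σ _ => ?_
  rw [Units.smul_def, zsmul_eq_mul]
  apply Ideal.mul_mem_left
  have h3 : ∏ j, B (σ j) j ∈ ∏ _j : Fin (t + 1), J :=
    Ideal.prod_mem_prod fun j _ => h _ _
  rw [Finset.prod_const, Finset.card_univ, Fintype.card_fin] at h3
  exact h3

theorem det_mem (A : Matrix (Fin (t + 1)) (Fin (t + 1)) R) (J : Ideal R) (k : Fin (t + 1))
    (c : Fin (t + 1) → R) (h : ∀ i j, i ≠ k → A i j - c i * A k j ∈ J) : A.det ∈ J ^ t := by
  classical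
  let c' : Fin (t + 1) → R := fun i => if i = k then 0 else c i
  let B : Matrix (Fin (t + 1)) (Fin (t + 1)) R := fun i j => A i j - c' i * A k j
  have hk : c' k = 0 := if_pos rfl
  have h1 : A.det = B.det := by
    refine Matrix.det_eq_of_forall_row_eq_smul_add_const c' k hk fun i j => ?_
    simp only [B, hk]
    ring
  rw [h1]
  refine det_mem_aux B J k fun i j hi => ?_
  have h2 : c' i = c i := if_neg hi
  simp only [B, h2]
  exact h i j hi

end det

variable {K : Type u} [Field K] {n : ℕ}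

/-- The linear form attached to a polynomial `g` in one variable. -/
noncomputable def lf (w s : Fin (n + 1) → K) (g : Polynomial K) : MvPolynomial (Fin (n + 1)) K :=
  ∑ j, C (w j * g.eval (s j)) * X j

theorem lf_homog (w s : Fin (n + 1) → K) (g : Polynomial K) : (lf w s g).IsHomogeneous 1 := by
  apply IsHomogeneous.sum
  intro j _
  have := (isHomogeneous_C (Fin (n + 1)) (w j * g.eval (s j))).mul
    (isHomogeneous_X K (j : Fin (n + 1)))
  simpa using this

theorem eval_lf (w s : Fin (n + 1) → K) (g : Polynomial K) (x : Fin (n + 1) → K) :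
    eval x (lf w s g) = ∑ j, w j * g.eval (s j) * x j := by
  simp [lf]

/-- The symmetric matrix of linear forms. -/
noncomputable def Mat (w s : Fin (n + 1) → K) (g : Polynomial K) (t : ℕ) :
    Matrix (Fin (t + 1)) (Fin (t + 1)) (MvPolynomial (Fin (n + 1)) K) :=
  fun a b => lf w s (g * Polynomial.X ^ ((a : ℕ) + b))

theorem Mat_det_homog (w s : Fin (n + 1) → K) (g : Polynomial K) (t : ℕ) :
    (Mat w s g t).det.IsHomogeneous (t + 1) := by
  classical
  rw [Matrix.det_apply]
  apply IsHomogeneous.sum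
  intro σ _
  rw [Units.smul_def, zsmul_eq_mul]
  have h1 : (∏ i, Mat w s g t (σ i) i).IsHomogeneous (∑ _i : Fin (t + 1), 1) :=
    IsHomogeneous.prod _ _ _ fun i _ => lf_homog _ _ _
  have h2 := (isHomogeneous_C (Fin (n + 1)) (((Equiv.Perm.sign σ : ℤˣ) : ℤ) : K)).mul h1
  have h3 : ((((Equiv.Perm.sign σ : ℤˣ) : ℤ) : MvPolynomial (Fin (n + 1)) K)) =
      C ((((Equiv.Perm.sign σ : ℤˣ) : ℤ) : K)) := by simp
  rw [h3]
  simpa using h2

theorem Mat_det_ne_zero {w s : Fin (n + 1) → K} {g : Polynomial K} {t : ℕ}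
    (f : Fin (t + 1) → Fin (n + 1)) (hf : Function.Injective f) (hs : Function.Injective s)
    (hw : ∀ j, w j ≠ 0) (hg : ∀ i, g.eval (s (f i)) ≠ 0) : (Mat w s g t).det ≠ 0 := by
  classical
  intro h0
  let x : Fin (n + 1) → K := fun j => if j ∈ Finset.univ.image f then (w j)⁻¹ else 0
  have h1 : ((eval x).mapMatrix (Mat w s g t)).det = 0 := by
    rw [← RingHom.map_det, h0, map_zero]
  have h2 : (eval x).mapMatrix (Mat w s g t) =
      (Matrix.vandermonde (s ∘ f)).transpose * Matrix.diagonal (fun i => g.eval (s (f i))) *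
        Matrix.vandermonde (s ∘ f) := by
    ext a b
    rw [RingHom.mapMatrix_apply, Matrix.map_apply, Mat, eval_lf, Matrix.mul_apply]
    simp only [Matrix.mul_diagonal, Matrix.transpose_apply, Matrix.vandermonde_apply,
      Function.comp_apply]
    have e1 : ∑ j, w j * (g * Polynomial.X ^ ((a : ℕ) + b)).eval (s j) * x j =
        ∑ j ∈ Finset.univ.image f, w j * (g * Polynomial.X ^ ((a : ℕ) + b)).eval (s j) * x j := by
      symm
      apply Finset.sum_subset (Finset.subset_univ _)
      intro j _ hj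
      have : x j = 0 := if_neg hj
      rw [this, mul_zero]
    rw [e1, Finset.sum_image (fun i _ j _ h => hf h)]
    refine Finset.sum_congr rfl fun i _ => ?_
    have : x (f i) = (w (f i))⁻¹ := if_pos (Finset.mem_image_of_mem _ (Finset.mem_univ i))
    rw [this]
    have hwi := hw (f i)
    simp only [Polynomial.eval_mul, Polynomial.eval_pow, Polynomial.eval_X]
    field_simp
    ring
  rw [h2, Matrix.det_mul, Matrix.det_mul, Matrix.det_transpose, Matrix.det_diagonal] at h1
  have h3 : (Matrix.vandermonde (s ∘ f)).det ≠ 0 :=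
    Matrix.det_vandermonde_ne_zero_iff.mpr (hs.comp hf)
  have h4 : ∏ i, g.eval (s (f i)) ≠ 0 := Finset.prod_ne_zero_iff.mpr fun i _ => hg i
  exact mul_ne_zero (mul_ne_zero h3 h4) h3 h1

theorem sum_div_eq_zero {s : Fin (n + 1) → K} (hs : Function.Injective s) {g : Polynomial K}
    (hg : g.natDegree < n ∨ g = 0) :
    ∑ j, g.eval (s j) / ∏ l ∈ Finset.univ.erase j, (s j - s l) = 0 := by
  rcases hg with hg | hg
  · have h1 : g.degree < ((Finset.univ : Finset (Fin (n + 1))).card : WithBot ℕ) := by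
      rw [Finset.card_univ, Fintype.card_fin]
      refine lt_of_le_of_lt Polynomial.degree_le_natDegree ?_
      exact_mod_cast Nat.lt_succ_of_lt hg
    have h2 := Lagrange.coeff_eq_sum (s := (Finset.univ : Finset (Fin (n + 1)))) (v := s)
      (hs.injOn) h1
    rw [← h2, Finset.card_univ, Fintype.card_fin]
    apply Polynomial.coeff_eq_zero_of_natDegree_lt
    simpa using hg
  · simp [hg]

/-- The forms `F_{I,t}`. -/
theorem exists_form_std {w s pa pb : Fin (n + 1) → K} (hs : Function.Injective s)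
    (hpa : ∀ j, pa j ≠ 0) (hpb : ∀ j, pb j ≠ 0) (hsj : ∀ j, s j = pa j / pb j)
    (hw : ∀ j, w j = (pa j * ∏ l ∈ Finset.univ.erase j, (s j - s l))⁻¹)
    {t : ℕ} {J : Finset (Fin (n + 1))} (hJ : J.card + 2 * t = n) :
    ∃ F : MvPolynomial (Fin (n + 1)) K, F ≠ 0 ∧ F.IsHomogeneous (t + 1) ∧
      F ∈ mI pa ^ t ∧ F ∈ mI pb ^ t ∧ (∀ j, F ∈ mI (Pi.single j 1) ^ t) ∧
      ∀ j ∈ J, F ∈ mI (Pi.single j 1) ^ (t + 1) := by
  classical
  set g : Polynomial K := ∏ j ∈ J, (Polynomial.X - Polynomial.C (s j)) with hg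
  have hgd : g.natDegree = J.card := Polynomial.natDegree_finsetProd_X_sub_C_eq_card _ _
  have hgm : g.Monic := Polynomial.monic_prod_of_monic _ _ fun j _ => Polynomial.monic_X_sub_C _
  have hg0 : ∀ j, g.eval (s j) = 0 ↔ j ∈ J := by
    intro j
    rw [hg, Polynomial.eval_prod, Finset.prod_eq_zero_iff]
    constructor
    · rintro ⟨l, hl, h⟩
      rw [Polynomial.eval_sub, Polynomial.eval_X, Polynomial.eval_C, sub_eq_zero] at h
      rwa [hs h]
    · intro h
      exact ⟨j, h, by simp⟩
  have hD : ∀ j, ∏ l ∈ Finset.univ.erase j, (s j - s l) ≠ 0 := by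
    intro j
    refine Finset.prod_ne_zero_iff.mpr fun l hl h => ?_
    exact (Finset.ne_of_mem_erase hl) (hs (sub_eq_zero.mp h)).symm
  have hw0 : ∀ j, w j ≠ 0 := by
    intro j
    rw [hw]
    exact inv_ne_zero (mul_ne_zero (hpa j) (hD j))
  have hdeg : ∀ e : ℕ, (g * Polynomial.X ^ e).natDegree = J.card + e := by
    intro e
    rw [Polynomial.natDegree_mul_X_pow _ hgm.ne_zero, hgd]
  have single_eval : ∀ (l : Fin (n + 1)) (h : Polynomial K),
      eval (Pi.single l (1 : K)) (lf w s h) = w l * h.eval (s l) := by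
    intro l h
    rw [eval_lf, Finset.sum_eq_single l]
    · simp
    · intro j _ hj
      rw [Pi.single_eq_of_ne hj, mul_zero]
    · intro h; exact absurd (Finset.mem_univ _) h
  refine ⟨(Mat w s g t).det, ?_, Mat_det_homog w s g t, ?_, ?_, ?_, ?_⟩
  · have hcard : t + 1 ≤ (Finset.univ \ J).card := by
      rw [Finset.card_sdiff_of_subset (Finset.subset_univ _), Finset.card_univ, Fintype.card_fin]
      omega
    obtain ⟨T, hT, hTc⟩ := Finset.exists_subset_card_eq hcard
    let f : Fin (t + 1) → Fin (n + 1) := fun i => (T.equivFinOfCardEq hTc).symm i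
    have hf : Function.Injective f := fun i j h => (T.equivFinOfCardEq hTc).symm.injective
      (Subtype.ext h)
    refine Mat_det_ne_zero f hf hs hw0 fun i => ?_
    rw [Ne, hg0]
    have := hT ((T.equivFinOfCardEq hTc).symm i).2
    exact (Finset.mem_sdiff.mp this).2
  · refine det_mem _ _ (Fin.last t) 0 fun i j hi => ?_
    rw [Pi.zero_apply, zero_mul, sub_zero, mem_mI, Mat, eval_lf]
    have hi' : (i : ℕ) < t := by
      have h1 := i.2
      have h2 : (i : ℕ) ≠ t := fun h => hi (Fin.ext h)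
      omega
    have hj' := j.2
    have h1 := sum_div_eq_zero (n := n) hs (g := g * Polynomial.X ^ ((i : ℕ) + j))
      (Or.inl (by rw [hdeg]; omega))
    rw [← h1]
    refine Finset.sum_congr rfl fun l _ => ?_
    rw [hw]
    have a1 := hpa l
    have a2 := hD l
    field_simp
  · refine det_mem _ _ 0 0 fun i j hi => ?_
    rw [Pi.zero_apply, zero_mul, sub_zero, mem_mI, Mat, eval_lf]
    have hi' : 0 < (i : ℕ) := Nat.pos_of_ne_zero fun h => hi (Fin.ext h)
    have hi2 := i.2
    have hj' := j.2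
    have h1 := sum_div_eq_zero (n := n) hs (g := g * Polynomial.X ^ ((i : ℕ) - 1 + j))
      (Or.inl (by rw [hdeg]; omega))
    rw [← h1]
    refine Finset.sum_congr rfl fun l _ => ?_
    rw [hw]
    have a1 := hpa l
    have a2 := hD l
    have a3 := hpb l
    have e1 : (i : ℕ) + j = (i : ℕ) - 1 + j + 1 := by omega
    rw [e1, pow_succ, ← mul_assoc, Polynomial.eval_mul, Polynomial.eval_X]
    have e2 : pa l = s l * pb l := by rw [hsj l]; field_simp
    have e3 : s l ≠ 0 := by rw [hsj l]; exact div_ne_zero a1 a3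
    rw [e2]
    generalize Polynomial.eval (s l) (g * Polynomial.X ^ ((i : ℕ) - 1 + j)) = E
    generalize ∏ l_1 ∈ Finset.univ.erase l, (s l - s l_1) = D at a2 ⊢
    field_simp
  · intro l
    refine det_mem _ _ 0 (fun i => C (s l ^ (i : ℕ))) fun i j hi => ?_
    rw [mem_mI, map_sub, map_mul, eval_C, Mat, Mat, single_eval, single_eval]
    simp only [Polynomial.eval_mul, Polynomial.eval_pow, Polynomial.eval_X, Fin.val_zero, zero_add]
    ring
  · intro l hl
    refine det_mem_all _ _ fun i j => ?_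
    rw [mem_mI, Mat, single_eval, Polynomial.eval_mul, (hg0 l).2 hl, zero_mul, mul_zero]

end Pool.Agent.Q84.Rnc
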