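import Mathlib

set_option autoImplicit false

/-!
# Points in linearly general position
-/

universe u

namespace Pool.Agent.Q84.Rnc

variable {K : Type u} [Field K] {n : ℕ} {ι : Type} [DecidableEq ι]

/-- No `n + 1` of the points lie on a hyperplane. -/
def LGP (Z : ι → Fin (n + 1) → K) : Prop :=
  ∀ f : (Fin (n + 1) → K) →ₗ[K] K, f ≠ 0 → ∀ s : Finset ι, (∀ i ∈ s, f (Z i) = 0) → s.card ≤ n

omit [DecidableEq ι] in
theorem LGP.comp {Z : ι → Fin (n + 1) → K} (h : LGP Z)
    (e : (Fin (n + 1) → K) ≃ₗ[K] (Fin (n + 1) → K)) : LGP (fun i => e (Z i)) := by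
  intro f hf s hs
  refine h (f.comp e.toLinearMap) ?_ s hs
  intro h0
  apply hf
  ext1 j
  ext
  have := congrArg (fun g => g (e.symm (LinearMap.single K (fun _ => K) j 1))) h0
  simpa using this

/-- The data of a normalized configuration: the points `Z (σ j)` are the coordinate points, and the
two remaining points have nonzero coordinates and nonzero minors. -/
structure Std (Z : ι → Fin (n + 1) → K) (a b : ι) (σ : Fin (n + 1) ≃ {i : ι // i ≠ a ∧ i ≠ b}) :
    Prop where
  coord : ∀ j, Z (σ j) = Pi.single j 1
  pa : ∀ j, Z a j ≠ 0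
  pb : ∀ j, Z b j ≠ 0
  minor : ∀ i j, i ≠ j → Z a i * Z b j ≠ Z a j * Z b i

theorem fun_eq (f : (Fin (n + 1) → K) →ₗ[K] K) (x : Fin (n + 1) → K) :
    f x = ∑ j, x j * f (Pi.single j 1) := by
  conv_lhs => rw [← LinearMap.sum_single_apply (fun _ : Fin (n + 1) => K) x, map_sum]
  refine Finset.sum_congr rfl fun j _ => ?_
  have : Pi.single (M := fun _ : Fin (n + 1) => K) j (x j) = x j • Pi.single j 1 := by
    rw [← Pi.single_smul, smul_eq_mul, mul_one]
  rw [this, map_smul, smul_eq_mul]

/-- The points `Z (σ j)` form a basis. -/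
theorem exists_equiv {Z : ι → Fin (n + 1) → K} (h : LGP Z) {a b : ι}
    (σ : Fin (n + 1) ≃ {i : ι // i ≠ a ∧ i ≠ b}) :
    ∃ e : (Fin (n + 1) → K) ≃ₗ[K] (Fin (n + 1) → K), ∀ j, e (Pi.single j 1) = Z (σ j) := by
  let φ : (Fin (n + 1) → K) →ₗ[K] (Fin (n + 1) → K) :=
    Fintype.linearCombination K (fun j => Z (σ j))
  have hφ : ∀ j, φ (Pi.single j 1) = Z (σ j) := by
    intro j
    simp [φ, Fintype.linearCombination_apply, Pi.single_apply]
  have hsurj : LinearMap.range φ = ⊤ := by
    by_contra hne
    obtain ⟨f, hf, hle⟩ := Submodule.exists_le_ker_of_lt_top _ (lt_top_iff_ne_top.mpr hne)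
    have h1 := h f hf (Finset.univ.image fun j => (σ j : ι)) (by
      intro i hi
      obtain ⟨j, -, rfl⟩ := Finset.mem_image.mp hi
      rw [← hφ j]
      exact hle (LinearMap.mem_range_self φ _))
    rw [Finset.card_image_of_injective _ (fun x y hxy => σ.injective (Subtype.ext hxy)),
      Finset.card_univ, Fintype.card_fin] at h1
    omega
  have hinj : Function.Injective φ :=
    LinearMap.injective_iff_surjective.mpr (LinearMap.range_eq_top.mp hsurj)
  exact ⟨LinearEquiv.ofInjectiveEndo φ hinj, fun j => hφ j⟩

theorem std_of_lgp {Z : ι → Fin (n + 1) → K} (h : LGP Z) {a b : ι} (hab : a ≠ b)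
    (σ : Fin (n + 1) ≃ {i : ι // i ≠ a ∧ i ≠ b}) (hc : ∀ j, Z (σ j) = Pi.single j 1) :
    Std Z a b σ := by
  have hσ : Function.Injective (fun j => (σ j : ι)) := fun x y hxy => σ.injective (Subtype.ext hxy)
  have hna : ∀ c : Fin (n + 1) → Prop, ∀ (s : Finset (Fin (n + 1))),
      a ∉ s.image (fun j => (σ j : ι)) := by
    intro _ s hs
    obtain ⟨j, -, hj⟩ := Finset.mem_image.mp hs
    exact (σ j).2.1 hj
  have hnb : ∀ (s : Finset (Fin (n + 1))), b ∉ s.image (fun j => (σ j : ι)) := by
    intro s hs
    obtain ⟨j, -, hj⟩ := Finset.mem_image.mp hs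
    exact (σ j).2.2 hj
  have hone : ∀ (p : ι), (p = a ∨ p = b) → ∀ j, Z p j ≠ 0 := by
    intro p hp j h0
    have hp' : p ∉ (Finset.univ.erase j).image (fun j => (σ j : ι)) := by
      rcases hp with rfl | rfl
      · exact hna (fun _ => True) _
      · exact hnb _
    have h1 := h (LinearMap.proj j) (by
      intro h2
      have := congrArg (fun g => g (Pi.single j (1 : K))) h2
      simp at this) (insert p ((Finset.univ.erase j).image fun j => (σ j : ι))) (by
      intro i hi
      rcases Finset.mem_insert.mp hi with rfl | hi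
      · exact h0
      · obtain ⟨l, hl, rfl⟩ := Finset.mem_image.mp hi
        rw [hc l, LinearMap.proj_apply, Pi.single_eq_of_ne (Finset.ne_of_mem_erase hl).symm])
    rw [Finset.card_insert_of_notMem hp', Finset.card_image_of_injective _ hσ,
      Finset.card_erase_of_mem (Finset.mem_univ _), Finset.card_univ, Fintype.card_fin] at h1
    omega
  refine ⟨hc, hone a (Or.inl rfl), hone b (Or.inr rfl), ?_⟩
  intro i j hij h0
  have hb' : b ∉ ((Finset.univ.erase i).erase j).image (fun j => (σ j : ι)) := hnb _
  have ha' : a ∉ insert b (((Finset.univ.erase i).erase j).image (fun j => (σ j : ι))) := by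
    rw [Finset.mem_insert, not_or]
    exact ⟨hab, hna (fun _ => True) _⟩
  have h1 := h (Z a j • LinearMap.proj i - Z a i • LinearMap.proj j) (by
      intro h2
      have := congrArg (fun g => g (Pi.single i (1 : K))) h2
      simp only [LinearMap.sub_apply, LinearMap.smul_apply, LinearMap.proj_apply,
        Pi.single_eq_same, smul_eq_mul, mul_one, LinearMap.zero_apply] at this
      rw [Pi.single_eq_of_ne hij.symm, mul_zero, sub_zero] at this
      exact hone a (Or.inl rfl) j this)
    (insert a (insert b (((Finset.univ.erase i).erase j).image fun j => (σ j : ι)))) (by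
      intro p hp
      rcases Finset.mem_insert.mp hp with rfl | hp
      · simp only [LinearMap.sub_apply, LinearMap.smul_apply, LinearMap.proj_apply, smul_eq_mul]
        ring
      · rcases Finset.mem_insert.mp hp with rfl | hp
        · simp only [LinearMap.sub_apply, LinearMap.smul_apply, LinearMap.proj_apply, smul_eq_mul]
          rw [h0]; ring
        · obtain ⟨l, hl, rfl⟩ := Finset.mem_image.mp hp
          simp only [LinearMap.sub_apply, LinearMap.smul_apply, LinearMap.proj_apply, smul_eq_mul]
          rw [hc l, Pi.single_eq_of_ne (Finset.ne_of_mem_erase hl).symm,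
            Pi.single_eq_of_ne (Finset.ne_of_mem_erase (Finset.mem_of_mem_erase hl)).symm]
          ring)
  rw [Finset.card_insert_of_notMem ha', Finset.card_insert_of_notMem hb',
    Finset.card_image_of_injective _ hσ,
    Finset.card_erase_of_mem (Finset.mem_erase.mpr ⟨hij.symm, Finset.mem_univ _⟩),
    Finset.card_erase_of_mem (Finset.mem_univ _), Finset.card_univ, Fintype.card_fin] at h1
  have : 2 ≤ n + 1 := by
    have h3 : ({i, j} : Finset (Fin (n + 1))).card ≤ Fintype.card (Fin (n + 1)) :=
      Finset.card_le_univ _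
    rw [Finset.card_pair hij, Fintype.card_fin] at h3
    exact h3
  omega

theorem lgp_of_std {Z : ι → Fin (n + 1) → K} {a b : ι} (hab : a ≠ b)
    (σ : Fin (n + 1) ≃ {i : ι // i ≠ a ∧ i ≠ b}) (h : Std Z a b σ) : LGP Z := by
  classical
  intro f hf s hs
  have hσ : Function.Injective (fun j => (σ j : ι)) := fun x y hxy => σ.injective (Subtype.ext hxy)
  -- the zeros of `f` among the coordinate points
  set z : Finset (Fin (n + 1)) := Finset.univ.filter fun j => f (Pi.single j 1) = 0 with hz
  set w : Finset (Fin (n + 1)) := Finset.univ.filter fun j => f (Pi.single j 1) ≠ 0 with hw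
  have hzw : z.card + w.card = n + 1 := by
    rw [hz, hw, Finset.card_filter_add_card_filter_not, Finset.card_univ, Fintype.card_fin]
  have hwne : w.Nonempty := by
    by_contra hcon
    rw [Finset.not_nonempty_iff_eq_empty] at hcon
    apply hf
    ext1 j
    ext
    have : j ∉ w := by rw [hcon]; exact Finset.notMem_empty j
    simpa [hw] using this
  have hsub : s ⊆ (z.image fun j => (σ j : ι)) ∪ (s ∩ {a, b}) := by
    intro i hi
    by_cases hia : i = a
    · subst hia; simp [hi]
    by_cases hib : i = b
    · subst hib; simp [hi]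
    rw [Finset.mem_union]
    left
    refine Finset.mem_image.mpr ⟨σ.symm ⟨i, hia, hib⟩, ?_, by simp⟩
    rw [hz, Finset.mem_filter]
    refine ⟨Finset.mem_univ _, ?_⟩
    rw [← h.coord, Equiv.apply_symm_apply]
    exact hs i hi
  have hcard : s.card ≤ z.card + (s ∩ {a, b}).card := by
    refine (Finset.card_le_card hsub).trans ((Finset.card_union_le _ _).trans ?_)
    rw [Finset.card_image_of_injective _ hσ]
  have h2 : (s ∩ {a, b}).card ≤ 2 :=
    (Finset.card_le_card Finset.inter_subset_right).trans (Finset.card_le_two)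
  -- f in terms of its support
  have hfx : ∀ x : Fin (n + 1) → K, f x = ∑ j ∈ w, x j * f (Pi.single j 1) := by
    intro x
    rw [fun_eq f x, hw, Finset.sum_filter]
    refine Finset.sum_congr rfl fun j _ => ?_
    by_cases h0 : f (Pi.single j 1) = 0
    · rw [if_neg (not_not.mpr h0), h0, mul_zero]
    · rw [if_pos h0]
  rcases Nat.lt_or_ge w.card 3 with hw3 | hw3
  · have hw1 : 1 ≤ w.card := Finset.card_pos.mpr hwne
    rcases Nat.lt_or_ge w.card 2 with hw2 | hw2
    · -- one element
      obtain ⟨i, hi⟩ := Finset.card_eq_one.mp (show w.card = 1 by omega)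
      have hfi : f (Pi.single i 1) ≠ 0 := by
        have : i ∈ w := by rw [hi]; exact Finset.mem_singleton_self i
        rw [hw, Finset.mem_filter] at this
        exact this.2
      have hemp : s ∩ {a, b} = ∅ := by
        rw [Finset.eq_empty_iff_forall_notMem]
        intro p hp
        rw [Finset.mem_inter, Finset.mem_insert, Finset.mem_singleton] at hp
        have h3 := hs p hp.1
        rw [hfx, hi, Finset.sum_singleton] at h3
        rcases hp.2 with rfl | rfl
        · exact mul_ne_zero (h.pa i) hfi h3
        · exact mul_ne_zero (h.pb i) hfi h3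
      rw [hemp, Finset.card_empty] at hcard
      omega
    · -- two elements
      obtain ⟨i, j, hij, hw'⟩ := Finset.card_eq_two.mp (show w.card = 2 by omega)
      have hfi : f (Pi.single i 1) ≠ 0 := by
        have : i ∈ w := by rw [hw']; simp
        rw [hw, Finset.mem_filter] at this
        exact this.2
      have hfj : f (Pi.single j 1) ≠ 0 := by
        have : j ∈ w := by rw [hw']; simp
        rw [hw, Finset.mem_filter] at this
        exact this.2
      have h5 : (s ∩ {a, b}).card ≤ 1 := by
        by_contra hcon
        have h6 : s ∩ {a, b} = {a, b} := Finset.eq_of_subset_of_card_le Finset.inter_subset_right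
          (by rw [Finset.card_pair hab]; omega)
        have ha : a ∈ s := by
          have : a ∈ s ∩ {a, b} := by rw [h6]; simp
          exact (Finset.mem_inter.mp this).1
        have hb : b ∈ s := by
          have : b ∈ s ∩ {a, b} := by rw [h6]; simp
          exact (Finset.mem_inter.mp this).1
        have h7 := hs a ha
        have h8 := hs b hb
        rw [hfx, hw', Finset.sum_pair hij] at h7 h8
        apply h.minor i j hij
        have h9 : (Z a i * Z b j - Z a j * Z b i) * f (Pi.single j 1) = 0 := by
          linear_combination (-Z b i) * h7 + Z a i * h8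
        rcases mul_eq_zero.mp h9 with h10 | h10
        · exact sub_eq_zero.mp h10
        · exact absurd h10 hfj
      omega
  · omega

end Pool.Agent.Q84.Rnc
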