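import Pool.Agent.Q84.Rnc.Crem

set_option autoImplicit false

/-!
# The Cremona step and the lower bound
-/

universe u

namespace Pool.Agent.Q84.Rnc

open MvPolynomial Pool.Agent.Chud Pool.Agent.H580C

variable {K : Type u} [Field K] {n : ℕ} {ι : Type} [DecidableEq ι]

theorem step {Z : ι → Fin (n + 1) → K} (hZ : LGP Z) {a b : ι} (hab : a ≠ b)
    (σ : Fin (n + 1) ≃ {i : ι // i ≠ a ∧ i ≠ b}) (m : ι → ℤ) {d : ℕ}
    {F : MvPolynomial (Fin (n + 1)) K} (hF0 : F ≠ 0) (hF : F.IsHomogeneous d)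
    (hm : ∀ i, F ∈ mI (Z i) ^ (m i).toNat) :
    ∃ (Z' : ι → Fin (n + 1) → K) (d' : ℕ) (F' : MvPolynomial (Fin (n + 1)) K), LGP Z' ∧ F' ≠ 0 ∧
      F'.IsHomogeneous d' ∧ (d' : ℤ) = n * d - ∑ j, m (σ j) ∧
      F' ∈ mI (Z' a) ^ (m a).toNat ∧ F' ∈ mI (Z' b) ^ (m b).toNat ∧
      ∀ i, i ≠ a → i ≠ b →
        F' ∈ mI (Z' i) ^ (n * d - d - ∑ j, m (σ j) + m i : ℤ).toNat := by
  classical
  obtain ⟨e, he⟩ := exists_equiv hZ σ
  set Z1 : ι → Fin (n + 1) → K := fun i => e.symm (Z i) with hZ1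
  have hZ1' : LGP Z1 := hZ.comp e.symm
  have hc : ∀ j, Z1 (σ j) = Pi.single j 1 := by
    intro j
    rw [hZ1]
    simp only
    rw [← he j, LinearEquiv.symm_apply_apply]
  have hstd := std_of_lgp hZ1' hab σ hc
  obtain ⟨s1, s2, -, s4, -, -⟩ := t_SU K (n + 1) e
  set G := sub e F with hG
  have hG0 : G ≠ 0 := fun h => hF0 (s1 (h.trans (map_zero _).symm))
  have hGh : G.IsHomogeneous d := s2 F d hF
  have hGm : ∀ i, G ∈ mI (Z1 i) ^ (m i).toNat := by
    intro i
    rw [hG, s4, hZ1]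
    simp only
    rw [LinearEquiv.apply_symm_apply]
    exact hm i
  have hcj : ∀ j, ∀ c ∈ G.support, c j + (m (σ j)).toNat ≤ d := by
    intro j
    have := hGm (σ j)
    rw [hc j] at this
    exact coord_le hGh this
  have hcd : ∀ c ∈ G.support, c.degree = d := by
    intro c hc
    have := hGh (mem_support_iff.1 hc)
    rwa [Finsupp.degree_eq_weight_one]
  obtain ⟨c0, hc0⟩ : G.support.Nonempty := by
    rwa [Finset.nonempty_iff_ne_empty, Ne, support_eq_empty]
  have hmd : ∀ j, m (σ j) ≤ d := by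
    intro j
    have h1 := hcj j c0 hc0
    omega
  set r : Fin (n + 1) →₀ ℕ := Finsupp.equivFunOnFinite.symm (fun j => ((d : ℤ) - m (σ j)).toNat)
    with hr
  have hrj : ∀ j, (r j : ℤ) = d - m (σ j) := by
    intro j
    have h1 : r j = ((d : ℤ) - m (σ j)).toNat := rfl
    have h2 := hmd j
    rw [h1]
    omega
  have hle : ∀ c ∈ G.support, c ≤ r := by
    intro c hc j
    have h1 := hcj j c hc
    have h2 := hrj j
    have h3 : c j ≤ d := by rw [← hcd c hc]; exact Finsupp.le_degree j c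
    omega
  have hrd : (r.degree : ℤ) = (n + 1) * d - ∑ j, m (σ j) := by
    rw [Finsupp.degree_eq_sum]
    push_cast
    rw [Finset.sum_congr rfl fun j _ => hrj j, Finset.sum_sub_distrib, Finset.sum_const,
      Finset.card_univ, Fintype.card_fin, nsmul_eq_mul]
    push_cast
    ring
  have hdr : d ≤ r.degree := by
    rw [← hcd c0 hc0]
    have : c0.degree + (r - c0).degree = r.degree := by
      rw [← map_add, add_tsub_cancel_of_le (hle c0 hc0)]
    omega
  have hd' : ((r.degree - d : ℕ) : ℤ) = n * d - ∑ j, m (σ j) := by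
    push_cast [Nat.cast_sub hdr]
    rw [hrd]; ring
  have hF'h := crem_homog hGh hle
  obtain ⟨Z2, h2a, h2b, h2i⟩ : ∃ Z2 : ι → Fin (n + 1) → K, Z2 a = (fun j => (Z1 a j)⁻¹) ∧
      Z2 b = (fun j => (Z1 b j)⁻¹) ∧ ∀ i, i ≠ a → i ≠ b → Z2 i = Z1 i := by
    refine ⟨fun i => if i = a then (fun j => (Z1 a j)⁻¹) else if i = b then
      (fun j => (Z1 b j)⁻¹) else Z1 i, if_pos rfl, ?_, ?_⟩
    · exact (if_neg hab.symm).trans (if_pos rfl)
    · intro i hia hib
      exact (if_neg hia).trans (if_neg hib)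
  refine ⟨Z2, r.degree - d, crem r G, ?_, crem_ne_zero hG0 hle, hF'h, hd', ?_, ?_, ?_⟩
  · refine lgp_of_std hab σ ⟨?_, ?_, ?_, ?_⟩
    · intro j
      rw [h2i _ (σ j).2.1 (σ j).2.2]
      exact hc j
    · intro j
      rw [h2a]
      exact inv_ne_zero (hstd.pa j)
    · intro j
      rw [h2b]
      exact inv_ne_zero (hstd.pb j)
    · intro i j hij h0
      rw [h2a, h2b] at h0
      have h1 := hstd.minor i j hij
      have a1 := hstd.pa i
      have a2 := hstd.pa j
      have b1 := hstd.pb i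
      have b2 := hstd.pb j
      apply h1
      field_simp at h0
      linear_combination -h0
  · rw [h2a]
    exact crem_mem hGh hG0 hle hstd.pa (hGm a)
  · rw [h2b]
    exact crem_mem hGh hG0 hle hstd.pb (hGm b)
  · intro i hia hib
    rw [h2i i hia hib]
    obtain ⟨j, hj⟩ : ∃ j, (σ j : ι) = i := ⟨σ.symm ⟨i, hia, hib⟩, by simp⟩
    rw [← hj, hc j]
    apply mem_coord hF'h
    intro c' hc'
    obtain ⟨c, hcs, rfl⟩ := crem_support hc'
    have h1 : (r - c) j ≤ (r - c).degree := Finsupp.le_degree j _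
    have h2 : (r - c).degree = r.degree - d := by
      have h3 := hF'h (mem_support_iff.1 hc')
      have h4' : (r - c).degree = Finsupp.weight 1 (r - c) := by
        rw [Finsupp.degree_eq_weight_one]
        rfl
      rw [h4']
      exact h3
    have h4 : (r - c) j ≤ r j := by rw [Finsupp.tsub_apply]; omega
    have h5 := hrj j
    omega

theorem sum_ite_lt (N s : ℕ) (hs : s ≤ N) (A B : ℤ) :
    ∑ i : Fin N, (if (i : ℕ) < s then A else B) = s * A + (N - s) * B := by
  rw [Fin.sum_univ_eq_sum_range (fun i => if i < s then A else B) N,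
    ← Finset.sum_range_add_sum_Ico _ hs]
  rw [Finset.sum_congr rfl (g := fun _ => A) (fun i hi => if_pos (Finset.mem_range.mp hi)),
    Finset.sum_congr rfl (g := fun _ => B)
      (fun i hi => if_neg (not_lt.mpr (Finset.mem_Ico.mp hi).1))]
  rw [Finset.sum_const, Finset.sum_const, Finset.card_range, Nat.card_Ico, nsmul_eq_mul,
    nsmul_eq_mul]
  push_cast [Nat.cast_sub hs]
  ring

/-- The multiplicities after `t` Cremona transformations. -/
def Mt (n : ℕ) (d k : ℤ) (t : ℕ) (i : Fin (n + 3)) : ℤ :=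
  if (i : ℕ) < 2 * t then k + (t - 1) * ((n - 1) * d - (n + 1) * k)
    else k + t * ((n - 1) * d - (n + 1) * k)

theorem iterate {Z : Fin (n + 3) → Fin (n + 1) → K} (hZ : LGP Z) {d k : ℕ}
    {F : MvPolynomial (Fin (n + 1)) K} (hF0 : F ≠ 0) (hF : F.IsHomogeneous d)
    (hm : ∀ i, F ∈ mI (Z i) ^ k) : ∀ t : ℕ, 2 * t ≤ n + 3 →
    ∃ (Z' : Fin (n + 3) → Fin (n + 1) → K) (d' : ℕ) (F' : MvPolynomial (Fin (n + 1)) K),
      LGP Z' ∧ F' ≠ 0 ∧ F'.IsHomogeneous d' ∧
      (d' : ℤ) = d + t * ((n - 1) * d - (n + 1) * k) ∧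
      ∀ i, F' ∈ mI (Z' i) ^ (Mt n d k t i).toNat := by
  classical
  intro t
  induction t with
  | zero =>
    intro _
    refine ⟨Z, d, F, hZ, hF0, hF, by simp, fun i => ?_⟩
    have : (Mt n d k 0 i).toNat = k := by
      rw [Mt, if_neg (by simp)]
      simp
    rw [this]
    exact hm i
  | succ t ih =>
    intro ht
    obtain ⟨Z', d', F', h1, h2, h3, h4, h5⟩ := ih (by omega)
    set a : Fin (n + 3) := ⟨2 * t, by omega⟩ with ha
    set b : Fin (n + 3) := ⟨2 * t + 1, by omega⟩ with hb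
    have hab : a ≠ b := by
      intro h
      have := congrArg (fun x : Fin (n + 3) => (x : ℕ)) h
      simp [ha, hb] at this
    have hcard : Fintype.card {i : Fin (n + 3) // i ≠ a ∧ i ≠ b} = n + 1 := by
      rw [Fintype.card_subtype]
      have : (Finset.univ.filter fun i : Fin (n + 3) => i ≠ a ∧ i ≠ b) =
          (Finset.univ.erase a).erase b := by
        ext i
        simp [and_comm]
      rw [this, Finset.card_erase_of_mem (Finset.mem_erase.mpr ⟨hab.symm, Finset.mem_univ _⟩),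
        Finset.card_erase_of_mem (Finset.mem_univ _), Finset.card_univ, Fintype.card_fin]
      rfl
    let σ : Fin (n + 1) ≃ {i : Fin (n + 3) // i ≠ a ∧ i ≠ b} :=
      (Fintype.equivFinOfCardEq hcard).symm
    have hsum : ∑ j, Mt n d k t (σ j) = (n + 1) * k + (n - 1) * t *
        ((n - 1) * d - (n + 1) * k) := by
      have e1 : ∑ j, Mt n d k t (σ j) = ∑ i : {i : Fin (n + 3) // i ≠ a ∧ i ≠ b},
          Mt n d k t i := Equiv.sum_comp σ (fun i : {i : Fin (n + 3) // i ≠ a ∧ i ≠ b} =>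
            Mt n d k t i)
      have e2 : ∑ i : {i : Fin (n + 3) // i ≠ a ∧ i ≠ b}, Mt n d k t i =
          ∑ i ∈ (Finset.univ.erase a).erase b, Mt n d k t i := by
        refine (Finset.sum_subtype _ (fun i => ?_) _).symm
        simp [and_comm]
      have e3 : ∑ i, Mt n d k t i = (2 * t : ℕ) * (k + (t - 1) * ((n - 1) * d - (n + 1) * k)) +
          (((n + 3 : ℕ) : ℤ) - (2 * t : ℕ)) * (k + t * ((n - 1) * d - (n + 1) * k)) :=
        sum_ite_lt (n + 3) (2 * t) (by omega) _ _
      have e4 : Mt n d k t a = k + t * ((n - 1) * d - (n + 1) * k) := by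
        rw [Mt, if_neg (by simp [ha])]
      have e5 : Mt n d k t b = k + t * ((n - 1) * d - (n + 1) * k) := by
        rw [Mt, if_neg (by simp [hb])]
      have e6 := Finset.add_sum_erase Finset.univ (Mt n d k t) (Finset.mem_univ a)
      have e7 := Finset.add_sum_erase (Finset.univ.erase a) (Mt n d k t)
        (Finset.mem_erase.mpr ⟨hab.symm, Finset.mem_univ b⟩)
      rw [e1, e2]
      rw [e3] at e6
      rw [e4] at e6
      rw [e5] at e7
      push_cast at e6 e7 ⊢
      linear_combination e6 + e7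
    obtain ⟨Z'', d'', F'', g1, g2, g3, g4, g5, g6, g7⟩ := step h1 hab σ (Mt n d k t) h2 h3 h5
    rw [hsum, h4] at g4 g7
    refine ⟨Z'', d'', F'', g1, g2, g3, ?_, ?_⟩
    · rw [g4]; push_cast; ring
    · intro i
      by_cases hia : i = a
      · have : Mt n d k (t + 1) i = Mt n d k t a := by
          rw [Mt, Mt, hia, if_pos (by simp [ha]), if_neg (by simp [ha])]
          push_cast; ring
        rw [this, hia]; exact g5
      by_cases hib : i = b
      · have : Mt n d k (t + 1) i = Mt n d k t b := by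
          rw [Mt, Mt, hib, if_pos (by simp [hb]; omega), if_neg (by simp [hb])]
          push_cast; ring
        rw [this, hib]; exact g6
      have h6 := g7 i hia hib
      have h7 : Mt n d k (t + 1) i = n * (d + t * ((n - 1) * d - (n + 1) * k)) -
          (d + t * ((n - 1) * d - (n + 1) * k)) - ((n + 1) * k + (n - 1) * t *
          ((n - 1) * d - (n + 1) * k)) + Mt n d k t i := by
        have hne1 : (i : ℕ) ≠ 2 * t := fun h => hia (Fin.ext h)
        have hne2 : (i : ℕ) ≠ 2 * t + 1 := fun h => hib (Fin.ext h)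
        rw [Mt, Mt]
        by_cases hi : (i : ℕ) < 2 * t
        · rw [if_pos hi, if_pos (by omega)]
          push_cast; ring
        · rw [if_neg hi, if_neg (by omega)]
          push_cast; ring
      rw [h7]
      exact h6

/-- The lower bound for the degree. -/
theorem lower {M : ℕ} {Z : Fin (2 * M + 1 + 3) → Fin (2 * M + 1 + 1) → K} (hZ : LGP Z) {d k : ℕ}
    {F : MvPolynomial (Fin (2 * M + 1 + 1)) K} (hF0 : F ≠ 0) (hF : F.IsHomogeneous d)
    (hm : ∀ i, F ∈ mI (Z i) ^ k) :
    2 * (M + 1) * (M + 2) * k ≤ (2 * M ^ 2 + 4 * M + 1) * d := by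
  obtain ⟨Z', d', F', -, -, -, h4, -⟩ := iterate hZ hF0 hF hm (M + 2) (by omega)
  have h5 : (0 : ℤ) ≤ d' := Int.natCast_nonneg _
  rw [h4] at h5
  push_cast at h5
  zify
  nlinarith [h5]

end Pool.Agent.Q84.Rnc
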