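import Pool.Agent.Q84.Rnc.Det
import Pool.Agent.Q84.Rnc.Step

set_option autoImplicit false

/-!
# The upper bound
-/

universe u

namespace Pool.Agent.Q84.Rnc

open MvPolynomial Pool.Agent.Chud Pool.Agent.H580C

variable {K : Type u} [Field K] {n : ℕ}

theorem card_off {a b : Fin (n + 3)} (hab : a ≠ b) :
    Fintype.card {i : Fin (n + 3) // i ≠ a ∧ i ≠ b} = n + 1 := by
  rw [Fintype.card_subtype]
  have : (Finset.univ.filter fun i : Fin (n + 3) => i ≠ a ∧ i ≠ b) =
      (Finset.univ.erase a).erase b := by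
    ext i
    simp [and_comm]
  rw [this, Finset.card_erase_of_mem (Finset.mem_erase.mpr ⟨hab.symm, Finset.mem_univ _⟩),
    Finset.card_erase_of_mem (Finset.mem_univ _), Finset.card_univ, Fintype.card_fin]
  rfl

theorem exists_form {Z : Fin (n + 3) → Fin (n + 1) → K} (hZ : LGP Z) {t : ℕ}
    {I : Finset (Fin (n + 3))} (hI : I.card + 2 * t = n) :
    ∃ F : MvPolynomial (Fin (n + 1)) K, F ≠ 0 ∧ F.IsHomogeneous (t + 1) ∧
      ∀ i, F ∈ mI (Z i) ^ (t + if i ∈ I then 1 else 0) := by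
  classical
  have hc : 1 < (Finset.univ \ I).card := by
    rw [Finset.card_sdiff_of_subset (Finset.subset_univ _), Finset.card_univ, Fintype.card_fin]
    omega
  obtain ⟨a, ha, b, hb, hab⟩ := Finset.one_lt_card.mp hc
  have haI := (Finset.mem_sdiff.mp ha).2
  have hbI := (Finset.mem_sdiff.mp hb).2
  let σ : Fin (n + 1) ≃ {i : Fin (n + 3) // i ≠ a ∧ i ≠ b} :=
    (Fintype.equivFinOfCardEq (card_off hab)).symm
  obtain ⟨e, he⟩ := exists_equiv hZ σ
  set Z1 : Fin (n + 3) → Fin (n + 1) → K := fun i => e.symm (Z i) with hZ1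
  have hZ1' : LGP Z1 := hZ.comp e.symm
  have hc : ∀ j, Z1 (σ j) = Pi.single j 1 := by
    intro j
    rw [hZ1]
    simp only
    rw [← he j, LinearEquiv.symm_apply_apply]
  have hstd := std_of_lgp hZ1' hab σ hc
  set s : Fin (n + 1) → K := fun j => Z1 a j / Z1 b j with hs
  have hsi : Function.Injective s := by
    intro i j hij
    by_contra hne
    apply hstd.minor i j hne
    have h1 := hstd.pb i
    have h2 := hstd.pb j
    simp only [hs] at hij
    field_simp at hij
    linear_combination hij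
  let J : Finset (Fin (n + 1)) := Finset.univ.filter fun j => (σ j : Fin (n + 3)) ∈ I
  have hJc : J.card = I.card := by
    refine Finset.card_bij (fun j _ => (σ j : Fin (n + 3))) (fun j hj => (Finset.mem_filter.mp hj).2)
      (fun i _ j _ h => σ.injective (Subtype.ext h)) (fun i hi => ?_)
    have h1 : i ≠ a ∧ i ≠ b := ⟨fun h => haI (h ▸ hi), fun h => hbI (h ▸ hi)⟩
    refine ⟨σ.symm ⟨i, h1⟩, Finset.mem_filter.mpr ⟨Finset.mem_univ _, ?_⟩, ?_⟩ <;> simp [hi]
  obtain ⟨F, f0, f1, f2, f3, f4, f5⟩ := exists_form_std (n := n)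
    (w := fun j => (Z1 a j * ∏ l ∈ Finset.univ.erase j, (s j - s l))⁻¹) hsi hstd.pa hstd.pb
    (fun j => rfl) (fun j => rfl) (t := t) (J := J) (by rw [hJc]; exact hI)
  obtain ⟨s1, s2, -, s4, -, -⟩ := t_SU K (n + 1) e.symm
  refine ⟨sub e.symm F, ?_, s2 F _ f1, fun i => ?_⟩
  · exact fun h => f0 (s1 (h.trans (map_zero _).symm))
  · rw [s4]
    change F ∈ mI (Z1 i) ^ _
    by_cases hia : i = a
    · rw [hia, if_neg haI]; exact f2
    by_cases hib : i = b
    · rw [hib, if_neg hbI]; exact f3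
    obtain ⟨j, hj⟩ : ∃ j, (σ j : Fin (n + 3)) = i := ⟨σ.symm ⟨i, hia, hib⟩, by simp⟩
    rw [← hj, hc j]
    split_ifs with h
    · exact f5 j (Finset.mem_filter.mpr ⟨Finset.mem_univ _, h⟩)
    · exact f4 j

theorem block (N i : ℕ) (hi : i < N) (L : ℕ) :
    ∑ y ∈ Finset.range (N * L), (if y % N = i then 1 else 0) = L := by
  induction L with
  | zero => simp
  | succ L ih =>
    rw [Nat.mul_succ, Finset.sum_range_add, ih]
    congr 1
    rw [Finset.sum_congr rfl (g := fun x => if x = i then 1 else 0)]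
    · rw [Finset.sum_ite_eq']
      simp [hi]
    · intro x hx
      rw [Nat.mul_add_mod, Nat.mod_eq_of_lt (Finset.mem_range.mp hx)]

theorem count_le (N i A q L : ℕ) (hi : i < N) (hA : A ≤ N) (h : N * L ≤ A + q) :
    L ≤ (if i < A then 1 else 0) +
      ∑ x ∈ Finset.range q, (if (A + x) % N = i then 1 else 0) := by
  have h1 : ∑ y ∈ Finset.range A, (if y % N = i then 1 else 0) = if i < A then 1 else 0 := by
    rw [Finset.sum_congr rfl (g := fun x => if x = i then 1 else 0)]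
    · rw [Finset.sum_ite_eq']
      simp
    · intro x hx
      rw [Nat.mod_eq_of_lt ((Finset.mem_range.mp hx).trans_le hA)]
  rw [← h1, ← Finset.sum_range_add, ← block N i hi L]
  rw [block N i hi L]
  conv_lhs => rw [← block N i hi L]
  exact Finset.sum_le_sum_of_subset (Finset.range_subset_range.mpr h)

/-- The upper bound for the degree. -/
theorem upper {M : ℕ} {Z : Fin (2 * M + 1 + 3) → Fin (2 * M + 1 + 1) → K} (hZ : LGP Z) {d k : ℕ}
    (hd : 0 < d) (h : 2 * (M + 1) * (M + 2) * k ≤ (2 * M ^ 2 + 4 * M + 1) * d) :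
    ∃ F : MvPolynomial (Fin (2 * M + 1 + 1)) K, F ≠ 0 ∧ F.IsHomogeneous d ∧
      ∀ i, F ∈ mI (Z i) ^ k := by
  classical
  obtain ⟨q, t, ht, hqt⟩ : ∃ q t : ℕ, t ≤ M ∧ d = q * (M + 1) + t + 1 := by
    refine ⟨(d - 1) / (M + 1), (d - 1) % (M + 1), ?_, ?_⟩
    · have : (d - 1) % (M + 1) < M + 1 := Nat.mod_lt _ (Nat.succ_pos M)
      omega
    · have := Nat.div_add_mod (d - 1) (M + 1)
      rw [mul_comm]
      omega
  obtain ⟨A, hA⟩ : ∃ A : ℕ, A = 2 * (M - t) + 1 := ⟨_, rfl⟩
  obtain ⟨N, hN⟩ : ∃ N : ℕ, N = 2 * M + 1 + 3 := ⟨_, rfl⟩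
  -- the first form
  obtain ⟨F0, f0, f1, f2⟩ := exists_form hZ (t := t)
    (I := Finset.univ.filter fun i : Fin (2 * M + 1 + 3) => (i : ℕ) < A) (by
      have : (Finset.univ.filter fun i : Fin (2 * M + 1 + 3) => (i : ℕ) < A).card = A := by
        rw [Fin.card_filter_val_lt]
        omega
      rw [this]
      omega)
  have hG : ∀ x : ℕ, ∃ F : MvPolynomial (Fin (2 * M + 1 + 1)) K, F ≠ 0 ∧
      F.IsHomogeneous (M + 1) ∧
      ∀ i : Fin (2 * M + 1 + 3), F ∈ mI (Z i) ^ (M + if (A + x) % N = i then 1 else 0) := by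
    intro x
    obtain ⟨G, g0, g1, g2⟩ := exists_form hZ (t := M)
      (I := {(⟨(A + x) % N, hN ▸ Nat.mod_lt _ (by omega)⟩ : Fin (2 * M + 1 + 3))}) (by
        rw [Finset.card_singleton]; omega)
    refine ⟨G, g0, g1, fun i => ?_⟩
    have := g2 i
    have h1 : (i ∈ ({(⟨(A + x) % N, hN ▸ Nat.mod_lt _ (by omega)⟩ : Fin (2 * M + 1 + 3))} :
        Finset (Fin (2 * M + 1 + 3)))) ↔ (A + x) % N = i := by
      rw [Finset.mem_singleton, Fin.ext_iff]
      exact eq_comm
    simp only [h1] at this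
    exact this
  choose G g0 g1 g2 using hG
  refine ⟨F0 * ∏ x ∈ Finset.range q, G x, ?_, ?_, fun i => ?_⟩
  · exact mul_ne_zero f0 (Finset.prod_ne_zero_iff.mpr fun x _ => g0 x)
  · have h1 : (∏ x ∈ Finset.range q, G x).IsHomogeneous (∑ _x ∈ Finset.range q, (M + 1)) :=
      IsHomogeneous.prod _ _ _ fun x _ => g1 x
    have h2 := f1.mul h1
    rw [Finset.sum_const, Finset.card_range, smul_eq_mul] at h2
    have h3 : t + 1 + q * (M + 1) = d := by omega
    rwa [h3] at h2
  · have h1 : ∏ x ∈ Finset.range q, G x ∈ ∏ x ∈ Finset.range q,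
        mI (Z i) ^ (M + if (A + x) % N = i then 1 else 0) :=
      Ideal.prod_mem_prod fun x _ => g2 x i
    rw [Finset.prod_pow_eq_pow_sum, Finset.sum_add_distrib, Finset.sum_const, Finset.card_range,
      smul_eq_mul] at h1
    have h2 := Ideal.mul_mem_mul (f2 i) h1
    rw [← pow_add] at h2
    refine Ideal.pow_le_pow_right ?_ h2
    have h3 : (i ∈ Finset.univ.filter fun i : Fin (2 * M + 1 + 3) => (i : ℕ) < A) ↔ (i : ℕ) < A := by
      simp
    simp only [h3]
    by_cases hk : k ≤ t + q * M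
    · omega
    have h4 : N * (k - (t + q * M)) ≤ A + q := by
      obtain ⟨u, hu⟩ : ∃ u, k = t + q * M + u := ⟨k - (t + q * M), by omega⟩
      have hu' : k - (t + q * M) = u := by omega
      rw [hu', hN, hA]
      obtain ⟨v, hv⟩ : ∃ v, M = t + v := ⟨M - t, by omega⟩
      have hv' : M - t = v := by omega
      rw [hv']
      rw [hqt, hu] at h
      by_contra hcon
      push Not at hcon
      have hcon' : 2 * v + 1 + q + 1 ≤ (2 * M + 1 + 3) * u := hcon
      have h6 := Nat.mul_le_mul_left (M + 1) hcon'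
      subst hv
      nlinarith [h6, h]
    have h5 := count_le N i A q (k - (t + q * M)) (by have := i.2; omega) (by omega) h4
    omega

end Pool.Agent.Q84.Rnc
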